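import Pool.Agent.BSE.Stmts2

set_option autoImplicit false
set_option linter.all false

open MeasureTheory Matrix Finset
open scoped ComplexConjugate ComplexOrder MatrixOrder

namespace Pool.Agent.BSE.H90

open Pool.Agent.BSE Pool.Agent.Helper64_FR

/-- the Haar probability measure -/
noncomputable def hmu (n : ℕ) : Measure (UU n) := Measure.haarMeasure ⊤

instance instProbHmu (n : ℕ) : IsProbabilityMeasure (hmu n) :=
  ⟨by
    have h := Measure.haarMeasure_self (K₀ := (⊤ : TopologicalSpace.PositiveCompacts (UU n)))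
    simpa [hmu] using h⟩

instance instLeftHmu (n : ℕ) : (hmu n).IsMulLeftInvariant := by
  unfold hmu; infer_instance

section
variable {n d : ℕ} (R : UU n →* Matrix (Fin d) (Fin d) ℂ)

/-- the integrand -/
noncomputable def MM (g : UU n) : Matrix (Fin d) (Fin d) ℂ := (R g⁻¹)ᴴ * R g⁻¹

theorem cont_R (hR : Continuous fun g : UU n => R g) (a b : Fin d) :
    Continuous fun g : UU n => R g⁻¹ a b := by
  have h1 : Continuous fun g : UU n => R g⁻¹ := hR.comp continuous_inv
  exact (continuous_apply_apply a b).comp h1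

theorem cont_MM (hR : Continuous fun g : UU n => R g) (a b : Fin d) :
    Continuous fun g : UU n => MM R g a b := by
  simp only [MM, Matrix.mul_apply, Matrix.conjTranspose_apply]
  refine continuous_finset_sum _ (fun c _ => ?_)
  exact ((cont_R R hR c a).star).mul (cont_R R hR c b)

theorem int_cont {f : UU n → ℂ} (hf : Continuous f) : Integrable f (hmu n) :=
  hf.integrable_of_hasCompactSupport (HasCompactSupport.of_compactSpace f)

/-- the averaged form -/
noncomputable def HH : Matrix (Fin d) (Fin d) ℂ := Matrix.of fun a b => ∫ g, MM R g a b ∂(hmu n)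

theorem mul_HH_mul (hR : Continuous fun g : UU n => R g) {l m : Type} (X : Matrix l (Fin d) ℂ)
    (Y : Matrix (Fin d) m ℂ) (a : l) (b : m) :
    (X * HH R * Y) a b = ∫ g, (X * MM R g * Y) a b ∂(hmu n) := by
  simp only [Matrix.mul_apply, HH, Matrix.of_apply]
  rw [integral_finset_sum]
  · refine Finset.sum_congr rfl (fun c _ => ?_)
    rw [integral_mul_const, integral_finset_sum]
    · congr 1
      refine Finset.sum_congr rfl (fun e _ => ?_)
      rw [integral_const_mul]
    · intro e _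
      exact int_cont ((continuous_const).mul (cont_MM R hR e c))
  · intro c _
    refine int_cont ?_
    refine Continuous.mul ?_ continuous_const
    exact continuous_finset_sum _ (fun e _ => (continuous_const).mul (cont_MM R hR e c))

theorem HH_inv (hR : Continuous fun g : UU n => R g) (h : UU n) : (R h)ᴴ * HH R * R h = HH R := by
  ext a b
  rw [mul_HH_mul R hR]
  have key : ∀ g : UU n, (R h)ᴴ * MM R g * R h = MM R (h⁻¹ * g) := by
    intro g
    unfold MM
    rw [_root_.mul_inv_rev, inv_inv, map_mul, Matrix.conjTranspose_mul]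
    simp only [Matrix.mul_assoc]
  simp only [key]
  rw [integral_mul_left_eq_self (μ := hmu n) (fun g => MM R g a b) h⁻¹]
  rfl

theorem HH_herm : (HH R).IsHermitian := by
  ext a b
  simp only [Matrix.conjTranspose_apply, HH, Matrix.of_apply]
  have h1 := integral_conj (μ := hmu n) (f := fun g => MM R g b a)
  rw [show star (∫ g, MM R g b a ∂(hmu n)) = ∫ g, conj (MM R g b a) ∂(hmu n) from h1.symm]
  congr 1
  funext g
  have h2 : (MM R g)ᴴ = MM R g := by
    unfold MM
    rw [Matrix.conjTranspose_mul, Matrix.conjTranspose_conjTranspose]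
  have h3 := congrFun (congrFun h2 a) b
  rw [Matrix.conjTranspose_apply] at h3
  exact h3

theorem quad (g : UU n) (x : Fin d → ℂ) :
    star x ⬝ᵥ (MM R g) *ᵥ x = ((∑ i, ‖((R g⁻¹) *ᵥ x) i‖ ^ 2 : ℝ) : ℂ) := by
  unfold MM
  rw [← Matrix.mulVec_mulVec, Matrix.dotProduct_mulVec, ← Matrix.star_mulVec]
  simp only [dotProduct, Pi.star_apply]
  push_cast
  refine Finset.sum_congr rfl (fun i _ => ?_)
  have := Complex.conj_mul' (((R g⁻¹) *ᵥ x) i)
  exact this

theorem HH_pos (hR : Continuous fun g : UU n => R g) : (HH R).PosDef := by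
  refine Matrix.PosDef.of_dotProduct_mulVec_pos (HH_herm R) (fun x hx => ?_)
  have h1 : star x ⬝ᵥ (HH R) *ᵥ x = ∫ g, star x ⬝ᵥ (MM R g) *ᵥ x ∂(hmu n) := by
    have h := mul_HH_mul R hR (Matrix.of fun (_ : Unit) a => star (x a)) (Matrix.of fun a (_ : Unit) => x a) () ()
    have e : ∀ M : Matrix (Fin d) (Fin d) ℂ, ((Matrix.of fun (_ : Unit) a => star (x a)) * M *
        (Matrix.of fun a (_ : Unit) => x a)) () () = star x ⬝ᵥ M *ᵥ x := by
      intro M
      rw [Matrix.mul_assoc, Matrix.mul_apply]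
      rfl
    rw [e] at h
    rw [h]
    congr 1
    funext g
    exact e _
  rw [h1]
  simp only [quad]
  rw [integral_complex_ofReal]
  have hc : Continuous fun g : UU n => (∑ i, ‖((R g⁻¹) *ᵥ x) i‖ ^ 2 : ℝ) := by
    refine continuous_finset_sum _ (fun i _ => ?_)
    refine Continuous.pow (Continuous.norm ?_) 2
    simp only [Matrix.mulVec, dotProduct]
    exact continuous_finset_sum _ (fun j _ => (cont_R R hR i j).mul continuous_const)
  have hpos : ∀ g : UU n, 0 < (∑ i, ‖((R g⁻¹) *ᵥ x) i‖ ^ 2 : ℝ) := by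
    intro g
    have h0 : 0 ≤ (∑ i, ‖((R g⁻¹) *ᵥ x) i‖ ^ 2 : ℝ) := Finset.sum_nonneg (fun i _ => sq_nonneg _)
    refine lt_of_le_of_ne h0 (fun h => hx ?_)
    have h2 := (Finset.sum_eq_zero_iff_of_nonneg (fun i _ => sq_nonneg _)).mp h.symm
    have h3 : (R g⁻¹) *ᵥ x = 0 := by
      funext i
      have := h2 i (Finset.mem_univ i)
      simpa using this
    have h4 : R g *ᵥ ((R g⁻¹) *ᵥ x) = x := by
      rw [Matrix.mulVec_mulVec, ← map_mul, mul_inv_cancel, map_one, Matrix.one_mulVec]
    rw [← h4, h3, Matrix.mulVec_zero]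
  have hint : 0 < ∫ g, (∑ i, ‖((R g⁻¹) *ᵥ x) i‖ ^ 2 : ℝ) ∂(hmu n) := by
    rw [integral_pos_iff_support_of_nonneg (fun g => (hpos g).le)
      (hc.integrable_of_hasCompactSupport (HasCompactSupport.of_compactSpace _))]
    have : Function.support (fun g : UU n => (∑ i, ‖((R g⁻¹) *ᵥ x) i‖ ^ 2 : ℝ)) = Set.univ := by
      ext g
      simpa using (hpos g).ne'
    rw [this, measure_univ]
    exact one_pos
  exact_mod_cast hint

end

/-- UNI. -/
theorem uni : UNIStmt := by
  intro n d R hR
  have hpd := HH_pos R hR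
  obtain ⟨S, hS⟩ := CStarAlgebra.nonneg_iff_eq_star_mul_self.mp hpd.posSemidef.nonneg
  have hS' : HH R = Sᴴ * S := hS
  have hu : IsUnit S := by
    rw [Matrix.isUnit_iff_isUnit_det]
    have h := hpd.det_pos
    rw [hS', Matrix.det_mul] at h
    exact isUnit_iff_ne_zero.mpr (fun h0 => by rw [h0, mul_zero] at h; exact lt_irrefl _ h)
  obtain ⟨u, rfl⟩ := hu
  have h12 : (u : Matrix (Fin d) (Fin d) ℂ) * ((u⁻¹ : (Matrix (Fin d) (Fin d) ℂ)ˣ) : Matrix (Fin d) (Fin d) ℂ) = 1 := by simp
  have h21 : ((u⁻¹ : (Matrix (Fin d) (Fin d) ℂ)ˣ) : Matrix (Fin d) (Fin d) ℂ) * (u : Matrix (Fin d) (Fin d) ℂ) = 1 := by simp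
  obtain ⟨S, hSu⟩ : ∃ S, S = (u : Matrix (Fin d) (Fin d) ℂ) := ⟨_, rfl⟩
  obtain ⟨S', hSu'⟩ : ∃ S', S' = ((u⁻¹ : (Matrix (Fin d) (Fin d) ℂ)ˣ) : Matrix (Fin d) (Fin d) ℂ) := ⟨_, rfl⟩
  rw [← hSu, ← hSu'] at h12 h21
  rw [← hSu] at hS'
  have hmem : ∀ g : UU n, S * R g * S' ∈ Matrix.unitaryGroup (Fin d) ℂ := by
    intro g
    rw [Matrix.mem_unitaryGroup_iff']
    have h1 : star (S * R g * S') = S'ᴴ * (R g)ᴴ * Sᴴ := by
      rw [Matrix.star_eq_conjTranspose, Matrix.conjTranspose_mul, Matrix.conjTranspose_mul, Matrix.mul_assoc]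
    rw [h1]
    calc S'ᴴ * (R g)ᴴ * Sᴴ * (S * R g * S') = S'ᴴ * ((R g)ᴴ * (Sᴴ * S) * R g) * S' := by
          simp only [Matrix.mul_assoc]
      _ = S'ᴴ * (Sᴴ * S) * S' := by rw [← hS', HH_inv R hR g]
      _ = (S * S')ᴴ * (S * S') := by rw [Matrix.conjTranspose_mul]; simp only [Matrix.mul_assoc]
      _ = 1 := by rw [h12, Matrix.conjTranspose_one, Matrix.one_mul]
  let hom : UU n →* UU d :=
    { toFun := fun g => ⟨S * R g * S', hmem g⟩
      map_one' := by
        apply Subtype.ext
        show S * R 1 * S' = 1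
        rw [map_one, Matrix.mul_one, h12]
      map_mul' := by
        intro g h
        apply Subtype.ext
        show S * R (g * h) * S' = (S * R g * S') * (S * R h * S')
        rw [map_mul]
        calc S * (R g * R h) * S' = S * R g * (1 : Matrix (Fin d) (Fin d) ℂ) * R h * S' := by
              simp only [Matrix.mul_assoc, Matrix.one_mul]
          _ = S * R g * (S' * S) * R h * S' := by rw [h21]
          _ = (S * R g * S') * (S * R h * S') := by simp only [Matrix.mul_assoc] }
  have hcont : Continuous hom := by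
    refine Continuous.subtype_mk ?_ _
    exact (continuous_const.matrix_mul hR).matrix_mul continuous_const
  refine ⟨⟨d, hom, hcont⟩, rfl, S, S', h12, h21, fun g => ?_⟩
  rfl

end Pool.Agent.BSE.H90
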